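import Mathlib
import Pool.Agent.Helper95.RelFree

set_option autoImplicit false

open scoped commutatorElement

universe u v

namespace Pool.Agent.Results.MP_a5fc06_al.DerivedLengthFour

/-- The laws, as words in countably many letters: all words in the fourth term of the derived
series, and all words `[[t, s^k] h [t, s^k]⁻¹, h]` with `h` in the second term of the derived
series, `t` in the commutator subgroup, `s` arbitrary and `k ≥ 3`. -/
def laws : Set (FreeGroup ℕ) :=
  {w | w ∈ derivedSeries (FreeGroup ℕ) 4} ∪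
  {w | ∃ h ∈ derivedSeries (FreeGroup ℕ) 2, ∃ t ∈ derivedSeries (FreeGroup ℕ) 1,
    ∃ s : FreeGroup ℕ, ∃ k : ℕ, 3 ≤ k ∧
      w = ⁅(⁅t, s ^ k⁆ : FreeGroup ℕ) * h * (⁅t, s ^ k⁆ : FreeGroup ℕ)⁻¹, h⁆}

/-- The variety defined by `laws` consists of soluble groups of derived length at most four, and
its free group of any rank at least two is not residually finite. -/
theorem result :
    (∀ (K : Type u) [Group K],
      (∀ w ∈ laws, ∀ φ : FreeGroup ℕ →* K, φ w = 1) → derivedSeries K 4 = ⊥) ∧
    ∀ (α : Type v) [Nontrivial α],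
      ∃ g : FreeGroup α ⧸ Subgroup.normalClosure
          {x : FreeGroup α | ∃ w ∈ laws, ∃ φ : FreeGroup ℕ →* FreeGroup α, φ w = x},
        g ≠ 1 ∧ ∀ H : Subgroup (FreeGroup α ⧸ Subgroup.normalClosure
          {x : FreeGroup α | ∃ w ∈ laws, ∃ φ : FreeGroup ℕ →* FreeGroup α, φ w = x}),
          H.index ≠ 0 → g ∈ H := by
  refine ⟨fun K _ hK => Helper95.derivedSeries_four_of_sat hK, ?_⟩
  intro α _
  obtain ⟨a, b, hab⟩ := exists_pair_ne α
  exact ⟨Helper95.crit (QuotientGroup.mk (FreeGroup.of a)) (QuotientGroup.mk (FreeGroup.of b)) 1,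
    Helper95.crit_ne_one α a b hab,
    fun H hH => Helper95.crit_mem_of_index (Helper95.sat_quot Helper95.lawSet α) _ _ H hH⟩

end Pool.Agent.Results.MP_a5fc06_al.DerivedLengthFour
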